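import Pool.Agent.Helper98.ZA.Stmts
import Pool.Agent.Helper98.TA.Basic
import Pool.Agent.Helper49.TA.TWT

/-! Row ZTR of the sheet ZA (MP_7a8f48_an): towers for powers on invariant sets. -/

set_option linter.unusedSectionVars false

open MeasureTheory Filter Topology Finset
open scoped ComplexConjugate

namespace Pool.Agent.Helper49.ZA

open Pool.Agent.Helper98.TW
open Pool.Agent.Helper98.TA (Tr ad Pw)
open Pool.Agent.Helper98.ZA (ST_ZTR)
open Pool.Agent.Helper49.TA (AA)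

section
variable {Ω : Type} [m0 : MeasurableSpace Ω] {μ μ' : Measure Ω} {𝒜 E E' : SA Ω} {f φ u : Ω → ℂ}
  {T T' S S' : Ω → Ω} {B : Set Ω}

theorem am_ac (h : μ' ≪ μ) (hf : AM μ 𝒜 f) : AM μ' 𝒜 f := by
  obtain ⟨g, hg, hfg⟩ := am_iff.1 hf
  exact am_iff.2 ⟨g, hg, h.ae_eq hfg⟩

theorem uf_ac (h : μ' ≪ μ) (hf : UF μ f) : UF μ' f := ⟨hf.1, h.ae_le hf.2⟩

/-- conditional measures are preserved -/
theorem mp_cond [IsProbabilityMeasure μ] (hT : MeasurePreserving T μ μ) (hB : MeasurableSet B)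
    (h : T ⁻¹' B =ᵐ[μ] B) :
    MeasurePreserving T (ProbabilityTheory.cond μ B) (ProbabilityTheory.cond μ B) := by
  refine ⟨hT.measurable, ?_⟩
  unfold ProbabilityTheory.cond
  rw [Measure.map_smul]
  congr 1
  rw [← Measure.restrict_congr_set h, ← Measure.restrict_map hT.measurable hB, hT.map_eq,
    Measure.restrict_congr_set h]

/-- systems on invariant sets -/
theorem sys_cond [IsProbabilityMeasure μ] (hT : Sys μ T T') (hB : MeasurableSet B)
    (h : T ⁻¹' B =ᵐ[μ] B) :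
    Sys (ProbabilityTheory.cond μ B) T T' := by
  have hac : ProbabilityTheory.cond μ B ≪ μ := ProbabilityTheory.cond_absolutelyContinuous
  have h' : T' ⁻¹' B =ᵐ[μ] B := by
    have h1 : ∀ᵐ x ∂μ, (T (T' x) ∈ B) = (T' x ∈ B) := by
      refine ae_comp (P := fun x => (T x ∈ B) = (x ∈ B)) hT.mp' ?_
      filter_upwards [h] with x hx
      exact hx
    filter_upwards [h1, hT.r] with x hx hr
    show (T' x ∈ B) = (x ∈ B)
    rw [← hx, hr]
  exact ⟨mp_cond hT.mp hB h, mp_cond hT.mp' hB h', hac.ae_le hT.l, hac.ae_le hT.r⟩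

theorem sg_mono {Φ Ψ : Set (Ω → ℂ)} (h : Φ ⊆ Ψ) :
    @LE.le (MeasurableSpace Ω) _ (sg Φ) (sg Ψ) :=
  iSup₂_le fun φ hφ => le_sg (h hφ)

theorem pw_sub (hac : μ' ≪ μ) (hE : @LE.le (MeasurableSpace Ω) _ E E') :
    Pw μ E u ⊆ Pw μ' E' u := by
  rintro φ ⟨hφ, n, hn⟩
  exact ⟨uf_ac hac hφ, n, am_mono hE (am_ac hac hn)⟩

theorem ad_le (hac : μ' ≪ μ) (hE : @LE.le (MeasurableSpace Ω) _ E E') :
    @LE.le (MeasurableSpace Ω) _ (ad μ E u) (ad μ' E' u) :=
  Pool.Agent.Helper98.TA.jo_mono hE (sg_mono (pw_sub hac hE))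

end

/-- ZTR: towers for powers on invariant sets. -/
theorem st_ZTR : ST_ZTR := by
  intro Ω _ μ _ S S' u A N m B hS hT hB _ hSB
  have hac : ProbabilityTheory.cond μ B ≪ μ := ProbabilityTheory.cond_absolutelyContinuous
  refine ⟨sys_cond (hS.iterate m) hB hSB, AA (ProbabilityTheory.cond μ B) u, ?_⟩
  have hle : ∀ k, @LE.le (MeasurableSpace Ω) _ (A k) (AA (ProbabilityTheory.cond μ B) u k) := by
    intro k
    induction k with
    | zero =>
      rw [hT.zero]
      exact le_refl (α := MeasurableSpace Ω) _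
    | succ k ih =>
      rw [hT.succ]
      exact ad_le hac ih
  refine ⟨rfl, fun k => rfl, fun k => uf_ac hac (hT.uf k), fun k => ?_, fun f hf => ?_⟩
  · have h1 : Inc μ (A k) S^[m] (u k) :=
      Pool.Agent.Helper98.TA.inc_iter (hT.ia hS k) hS (hT.uf k) (hT.inc k) m
    exact am_mono (hle k) (am_ac hac h1)
  · exact am_mono (hle N) (am_ac hac (hT.top f hf))

end Pool.Agent.Helper49.ZA
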