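import Pool.Agent.Helper98.ZA.Stmts
import Pool.Agent.Helper49.ZA.ZTR

/-! Row ZAC of the sheet ZA (MP_7a8f48_an): invariant measures of powers. -/

set_option linter.unusedSectionVars false

open MeasureTheory Filter Topology Finset
open scoped ComplexConjugate ENNReal

namespace Pool.Agent.Helper49.ZA

open Pool.Agent.Helper98.ZA (ST_ZAC Un)

section
variable {Y : Type} [MeasurableSpace Y] {ν ν' : Measure Y} {S : Y → Y}

theorem erg_un [IsProbabilityMeasure ν] (hU : Un S ν) : Ergodic S ν := by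
  refine ⟨hU.1, ⟨fun s hs hss => ?_⟩⟩
  rw [eventuallyConst_set']
  by_cases h0 : ν s = 0
  · left
    exact ae_eq_empty.2 h0
  · right
    have hP : IsProbabilityMeasure (ProbabilityTheory.cond ν s) :=
      ProbabilityTheory.cond_isProbabilityMeasure h0
    have h1 := hU.2 (ProbabilityTheory.cond ν s) hP
      (mp_cond hU.1 hs (Filter.EventuallyEq.of_eq hss))
    have h2 : ProbabilityTheory.cond ν s sᶜ = 0 := by
      rw [ProbabilityTheory.cond_apply hs, Set.inter_compl_self, measure_empty, mul_zero]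
    rw [h1] at h2
    exact ae_eq_univ.2 h2

/-- the average of the images of a measure which is invariant under `S^p` -/
theorem avg_inv (hS : Measurable S) {p : ℕ} (hp : 1 ≤ p) [IsProbabilityMeasure ν']
    (h : MeasurePreserving S^[p] ν' ν') :
    IsProbabilityMeasure ((p : ℝ≥0∞)⁻¹ • ∑ j ∈ range p, ν'.map S^[j]) ∧
    MeasurePreserving S ((p : ℝ≥0∞)⁻¹ • ∑ j ∈ range p, ν'.map S^[j])
      ((p : ℝ≥0∞)⁻¹ • ∑ j ∈ range p, ν'.map S^[j]) := by
  have hp0 : (p : ℝ≥0∞) ≠ 0 := by exact_mod_cast (Nat.one_le_iff_ne_zero.1 hp)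
  have hpt : (p : ℝ≥0∞) ≠ ∞ := ENNReal.natCast_ne_top p
  have hSj : ∀ j : ℕ, Measurable S^[j] := fun j => hS.iterate j
  have hs : (∑ j ∈ range p, ν'.map S^[j]).map S = ∑ j ∈ range p, ν'.map S^[j] := by
    have h1 : (∑ j ∈ range p, ν'.map S^[j]).map S = ∑ j ∈ range p, ν'.map S^[j + 1] := by
      rw [Measure.map_finset_sum hS.aemeasurable]
      refine Finset.sum_congr rfl fun j _ => ?_
      rw [Measure.map_map hS (hSj j), Function.iterate_succ']
    rw [h1]
    have h2 : ∑ j ∈ range p, ν'.map S^[j + 1] + ν'.map S^[0] =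
        ∑ j ∈ range p, ν'.map S^[j] + ν'.map S^[p] := by
      have a1 := Finset.sum_range_succ (fun j => ν'.map S^[j]) p
      have a2 := Finset.sum_range_succ' (fun j => ν'.map S^[j]) p
      exact a2.symm.trans a1
    have h3 : ν'.map S^[0] = ν' := by
      rw [Function.iterate_zero, Measure.map_id]
    rw [h.map_eq, h3] at h2
    ext A hA
    have h4 := congrArg (fun m : Measure Y => m A) h2
    simp only [Measure.add_apply] at h4
    exact (ENNReal.add_left_inj (measure_ne_top ν' A)).1 h4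
  refine ⟨⟨?_⟩, ⟨hS, ?_⟩⟩
  · rw [Measure.smul_apply, Measure.finsetSum_apply, smul_eq_mul]
    have h1 : ∀ j ∈ range p, (ν'.map S^[j]) Set.univ = 1 := by
      intro j _
      rw [Measure.map_apply (hSj j) MeasurableSet.univ, Set.preimage_univ, measure_univ]
    rw [Finset.sum_congr rfl h1, Finset.sum_const, card_range, nsmul_eq_mul, mul_one]
    exact ENNReal.inv_mul_cancel hp0 hpt
  · rw [Measure.map_smul, hs]

end

/-- ZAC: invariant measures of powers. -/
theorem st_ZAC : ST_ZAC := by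
  intro Y _ ν _ S hS hU
  refine ⟨erg_un hU, fun p ν' hp hP h s hs => ?_⟩
  have hp0 : (p : ℝ≥0∞) ≠ 0 := by exact_mod_cast (Nat.one_le_iff_ne_zero.1 hp)
  have hpt : (p : ℝ≥0∞) ≠ ∞ := ENNReal.natCast_ne_top p
  obtain ⟨h1, h2⟩ := avg_inv hS hp h
  have h3 := hU.2 _ h1 h2
  rw [← h3, Measure.smul_apply, Measure.finsetSum_apply, smul_eq_mul, ← mul_assoc,
    ENNReal.mul_inv_cancel hp0 hpt, one_mul]
  have h4 : (ν'.map S^[0]) s = ν' s := by
    rw [Function.iterate_zero, Measure.map_id]
  rw [← h4]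
  exact Finset.single_le_sum (f := fun j => (ν'.map S^[j]) s) (fun _ _ => zero_le)
    (mem_range.2 hp)

end Pool.Agent.Helper49.ZA
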